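import Pool.Agent.Q44.PE.Stm

/-!
# Project PE (helper44), job TY (helper182): types of maps with linear approximations
-/

set_option autoImplicit false

namespace Pool.Agent.Q182.PE.TY

open Pool.Agent.Q44.PE

section

variable {L : Type} [NormedField L] [IsUltrametricDist L] {n : ℕ}

lemma add_le {a b : Fin n → L} {c : ℝ} (ha : ‖a‖ ≤ c) (hb : ‖b‖ ≤ c) : ‖a + b‖ ≤ c :=
  (IsUltrametricDist.norm_add_le_max a b).trans (max_le ha hb)

lemma sub_le {a b : Fin n → L} {c : ℝ} (ha : ‖a‖ ≤ c) (hb : ‖b‖ ≤ c) : ‖a - b‖ ≤ c := by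
  rw [sub_eq_add_neg]
  exact add_le ha (by rwa [norm_neg])

lemma mulVec_le (A : Matrix (Fin n) (Fin n) L) {c : ℝ} (hc : 0 ≤ c) (hA : ∀ a b, ‖A a b‖ ≤ c)
    (v : Fin n → L) : ‖A.mulVec v‖ ≤ c * ‖v‖ := by
  rw [pi_norm_le_iff_of_nonneg (by positivity)]
  intro i
  show ‖∑ j, A i j * v j‖ ≤ c * ‖v‖
  refine IsUltrametricDist.norm_sum_le_of_forall_le_of_nonneg (by positivity) fun j _ => ?_
  rw [norm_mul]
  exact mul_le_mul (hA i j) (norm_le_pi_norm v j) (norm_nonneg _) hc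

variable {ε : ℝ} {𝒳 : Set (Fin n → L)}

/-- nonexpansive on the balls -/
lemma nonexp (hε0 : 0 < ε) (hε1 : ε < 1) {g : 𝒳 → 𝒳} (hg : Lin ε 𝒳 g) {P x y : 𝒳}
    (hx : ‖(x : Fin n → L) - P‖ ≤ ε) (hy : ‖(y : Fin n → L) - P‖ ≤ ε) :
    ‖(g y : Fin n → L) - g x‖ ≤ ‖(y : Fin n → L) - x‖ := by
  obtain ⟨A, hA, hlin⟩ := hg P
  have h1 := hlin x y hx hy
  have h2 := mulVec_le A zero_le_one hA ((y : Fin n → L) - x)
  rw [one_mul] at h2
  have h3 : ε * ‖(y : Fin n → L) - x‖ ≤ ‖(y : Fin n → L) - x‖ := by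
    have := norm_nonneg ((y : Fin n → L) - x)
    nlinarith
  have h4 : (g y : Fin n → L) - g x =
      (((g y : Fin n → L) - g x) - A.mulVec ((y : Fin n → L) - x)) + A.mulVec ((y : Fin n → L) - x) := by
    abel
  rw [h4]
  exact add_le (h1.trans h3) h2

lemma nonexp' (hε0 : 0 < ε) (hε1 : ε < 1) {g : 𝒳 → 𝒳} (hg : Lin ε 𝒳 g) {x y : 𝒳}
    (hy : ‖(y : Fin n → L) - x‖ ≤ ε) : ‖(g y : Fin n → L) - g x‖ ≤ ‖(y : Fin n → L) - x‖ := by
  refine nonexp hε0 hε1 hg (P := x) ?_ hy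
  rw [sub_self, norm_zero]
  exact hε0.le

end

theorem main : E_typ := by
  classical
  intro L _ _ _ n ε hε0 hε1 𝒳 h𝒳
  -- the nets
  have hX : TotallyBounded 𝒳 := by
    refine (isCompact_closedBall (0 : Fin n → L) 1).totallyBounded.subset fun x hx => ?_
    rw [mem_closedBall_zero_iff]
    exact h𝒳 x hx
  obtain ⟨t, ht𝒳, htfin, ht⟩ := Metric.finite_approx_of_totallyBounded hX ε hε0
  have hM : TotallyBounded {A : Fin n → Fin n → L | ∀ a b, ‖A a b‖ ≤ 1} := by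
    refine (isCompact_closedBall (0 : Fin n → Fin n → L) 1).totallyBounded.subset fun A hA => ?_
    rw [mem_closedBall_zero_iff, pi_norm_le_iff_of_nonneg zero_le_one]
    intro a
    rw [pi_norm_le_iff_of_nonneg zero_le_one]
    exact hA a
  obtain ⟨s, hsM, hsfin, hs⟩ := Metric.finite_approx_of_totallyBounded hM ε hε0
  have hft : Finite t := htfin
  have hfs : Finite s := hsfin
  have hnet : ∀ x : 𝒳, ∃ P : t, ‖(x : Fin n → L) - P‖ ≤ ε := by
    intro x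
    have h1 := ht x.2
    rw [Set.mem_iUnion₂] at h1
    obtain ⟨P, hP, h2⟩ := h1
    rw [mem_ball_iff_norm] at h2
    exact ⟨⟨P, hP⟩, h2.le⟩
  have hnetM : ∀ A : Matrix (Fin n) (Fin n) L, (∀ a b, ‖A a b‖ ≤ 1) →
      ∃ B : s, ∀ a b, ‖A a b - (B : Fin n → Fin n → L) a b‖ ≤ ε := by
    intro A hA
    have h1 := hs (show (fun a b => A a b : Fin n → Fin n → L) ∈
      {A : Fin n → Fin n → L | ∀ a b, ‖A a b‖ ≤ 1} from hA)
    rw [Set.mem_iUnion₂] at h1
    obtain ⟨B, hB, h2⟩ := h1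
    rw [mem_ball_iff_norm] at h2
    refine ⟨⟨B, hB⟩, fun a b => ?_⟩
    have h3 := norm_le_pi_norm ((fun a b => A a b : Fin n → Fin n → L) - B) a
    have h4 := norm_le_pi_norm (((fun a b => A a b : Fin n → Fin n → L) - B) a) b
    exact (h4.trans h3).trans h2.le
  -- the data of a map
  have hdata : ∀ g : 𝒳 → 𝒳, Lin ε 𝒳 g → ∃ f : t → t × s, ∀ P : t,
      ‖(g ⟨P, ht𝒳 P.2⟩ : Fin n → L) - (f P).1‖ ≤ ε ∧
      ∃ A : Matrix (Fin n) (Fin n) L, (∀ a b, ‖A a b - ((f P).2 : Fin n → Fin n → L) a b‖ ≤ ε) ∧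
        ∀ x y : 𝒳, ‖(x : Fin n → L) - P‖ ≤ ε → ‖(y : Fin n → L) - P‖ ≤ ε →
          ‖((g y : Fin n → L) - g x) - A.mulVec ((y : Fin n → L) - x)‖ ≤
            ε * ‖(y : Fin n → L) - x‖ := by
    intro g hg
    have h1 : ∀ P : t, ∃ q : t × s, ‖(g ⟨P, ht𝒳 P.2⟩ : Fin n → L) - q.1‖ ≤ ε ∧
        ∃ A : Matrix (Fin n) (Fin n) L, (∀ a b, ‖A a b - (q.2 : Fin n → Fin n → L) a b‖ ≤ ε) ∧
        ∀ x y : 𝒳, ‖(x : Fin n → L) - P‖ ≤ ε → ‖(y : Fin n → L) - P‖ ≤ ε →
          ‖((g y : Fin n → L) - g x) - A.mulVec ((y : Fin n → L) - x)‖ ≤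
            ε * ‖(y : Fin n → L) - x‖ := by
      intro P
      obtain ⟨Q, hQ⟩ := hnet (g ⟨P, ht𝒳 P.2⟩)
      obtain ⟨A, hA, hlin⟩ := hg ⟨P, ht𝒳 P.2⟩
      obtain ⟨B, hB⟩ := hnetM A hA
      exact ⟨(Q, B), hQ, A, hB, hlin⟩
    choose f hf using h1
    exact ⟨f, hf⟩
  let τ : (𝒳 → 𝒳) → Option (t → t × s) := fun g =>
    if h : Lin ε 𝒳 g then some (Classical.choose (hdata g h)) else none
  refine ⟨Option (t → t × s), inferInstance, τ, ?_⟩
  intro g g' h' hg hg' hh' hinv hτ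
  -- the common data
  have hgs := Classical.choose_spec (hdata g hg)
  have hgs' := Classical.choose_spec (hdata g' hg')
  have heq : Classical.choose (hdata g hg) = Classical.choose (hdata g' hg') := by
    have h1 : τ g = some (Classical.choose (hdata g hg)) := dif_pos hg
    have h2 : τ g' = some (Classical.choose (hdata g' hg')) := dif_pos hg'
    rw [h1, h2] at hτ
    exact Option.some.inj hτ
  rw [← heq] at hgs'
  -- the maps are near each other
  have hclose : ∀ x : 𝒳, ‖(g x : Fin n → L) - g' x‖ ≤ ε := by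
    intro x
    obtain ⟨P, hP⟩ := hnet x
    have hPP : ‖((⟨P, ht𝒳 P.2⟩ : 𝒳) : Fin n → L) - (⟨P, ht𝒳 P.2⟩ : 𝒳)‖ ≤ ε := by
      rw [sub_self, norm_zero]
      exact hε0.le
    have h1 : ‖(g x : Fin n → L) - g ⟨P, ht𝒳 P.2⟩‖ ≤ ε :=
      (nonexp hε0 hε1 hg (P := ⟨P, ht𝒳 P.2⟩) hPP hP).trans hP
    have h2 : ‖(g' x : Fin n → L) - g' ⟨P, ht𝒳 P.2⟩‖ ≤ ε :=
      (nonexp hε0 hε1 hg' (P := ⟨P, ht𝒳 P.2⟩) hPP hP).trans hP
    have h3 := sub_le (hgs P).1 (hgs' P).1
    have h4 : (g x : Fin n → L) - g' x = (((g x : Fin n → L) - g ⟨P, ht𝒳 P.2⟩) +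
        (((g ⟨P, ht𝒳 P.2⟩ : Fin n → L) - (Classical.choose (hdata g hg) P).1) -
          ((g' ⟨P, ht𝒳 P.2⟩ : Fin n → L) - (Classical.choose (hdata g hg) P).1))) -
        ((g' x : Fin n → L) - g' ⟨P, ht𝒳 P.2⟩) := by
      abel
    rw [h4]
    exact sub_le (add_le h1 h3) h2
  -- the differences are near each other
  have hdiff : ∀ x y : 𝒳, ‖(y : Fin n → L) - x‖ ≤ ε →
      ‖((g y : Fin n → L) - g x) - ((g' y : Fin n → L) - g' x)‖ ≤ ε * ‖(y : Fin n → L) - x‖ := by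
    intro x y hxy
    obtain ⟨P, hP⟩ := hnet x
    have hyP : ‖(y : Fin n → L) - P‖ ≤ ε := by
      have h1 : (y : Fin n → L) - P = ((y : Fin n → L) - x) + ((x : Fin n → L) - P) := by abel
      rw [h1]
      exact add_le hxy hP
    obtain ⟨A, hA, hlin⟩ := (hgs P).2
    obtain ⟨A', hA', hlin'⟩ := (hgs' P).2
    have h1 := hlin x y hP hyP
    have h2 := hlin' x y hP hyP
    have h3 : ‖(A - A').mulVec ((y : Fin n → L) - x)‖ ≤ ε * ‖(y : Fin n → L) - x‖ := by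
      refine mulVec_le (A - A') hε0.le (fun a b => ?_) _
      have h4 : (A - A') a b = (A a b - ((Classical.choose (hdata g hg) P).2 : Fin n → Fin n → L) a b) +
          -(A' a b - ((Classical.choose (hdata g hg) P).2 : Fin n → Fin n → L) a b) := by
        rw [Matrix.sub_apply]
        ring
      rw [h4]
      refine (IsUltrametricDist.norm_add_le_max _ _).trans (max_le (hA a b) ?_)
      rw [norm_neg]
      exact hA' a b
    have h5 : ((g y : Fin n → L) - g x) - ((g' y : Fin n → L) - g' x) =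
        ((((g y : Fin n → L) - g x) - A.mulVec ((y : Fin n → L) - x)) -
          (((g' y : Fin n → L) - g' x) - A'.mulVec ((y : Fin n → L) - x))) +
        (A - A').mulVec ((y : Fin n → L) - x) := by
      rw [Matrix.sub_mulVec]
      abel
    rw [h5]
    exact add_le (sub_le h1 h2) h3
  refine ⟨fun x => ?_, fun x y hxy => ?_⟩
  · have h1 := nonexp' hε0 hε1 hh' (hclose x)
    rw [hinv] at h1
    exact h1.trans (hclose x)
  · obtain ⟨C, hC, hlin⟩ := hh' (g' x)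
    have hgy : ‖(g y : Fin n → L) - g' x‖ ≤ ε := by
      have h1 : (g y : Fin n → L) - g' x = ((g y : Fin n → L) - g x) + ((g x : Fin n → L) - g' x) := by
        abel
      rw [h1]
      exact add_le ((nonexp' hε0 hε1 hg hxy).trans hxy) (hclose x)
    have hgy' : ‖(g' y : Fin n → L) - g' x‖ ≤ ε := (nonexp' hε0 hε1 hg' hxy).trans hxy
    have hgx' : ‖(g' x : Fin n → L) - g' x‖ ≤ ε := by
      rw [sub_self, norm_zero]
      exact hε0.le
    have h1 := hlin (g x) (g y) (hclose x) hgy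
    have h2 := hlin (g' x) (g' y) hgx' hgy'
    rw [hinv, hinv] at h2
    have h3 : ε * ‖(g y : Fin n → L) - g x‖ ≤ ε * ‖(y : Fin n → L) - x‖ :=
      mul_le_mul_of_nonneg_left (nonexp' hε0 hε1 hg hxy) hε0.le
    have h4 : ε * ‖(g' y : Fin n → L) - g' x‖ ≤ ε * ‖(y : Fin n → L) - x‖ :=
      mul_le_mul_of_nonneg_left (nonexp' hε0 hε1 hg' hxy) hε0.le
    have h5 : ‖C.mulVec (((g y : Fin n → L) - g x) - ((g' y : Fin n → L) - g' x))‖ ≤
        ε * ‖(y : Fin n → L) - x‖ := by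
      have h6 := mulVec_le C zero_le_one hC (((g y : Fin n → L) - g x) - ((g' y : Fin n → L) - g' x))
      rw [one_mul] at h6
      exact h6.trans (hdiff x y hxy)
    have h7 : ((h' (g y) : Fin n → L) - h' (g x)) - ((y : Fin n → L) - x) =
        ((((h' (g y) : Fin n → L) - h' (g x)) - C.mulVec ((g y : Fin n → L) - g x)) -
          (((y : Fin n → L) - x) - C.mulVec ((g' y : Fin n → L) - g' x))) +
        C.mulVec (((g y : Fin n → L) - g x) - ((g' y : Fin n → L) - g' x)) := by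
      have e : C.mulVec (((g y : Fin n → L) - g x) - ((g' y : Fin n → L) - g' x)) =
          C.mulVec ((g y : Fin n → L) - g x) - C.mulVec ((g' y : Fin n → L) - g' x) :=
        Matrix.mulVec_sub _ _ _
      rw [e]
      generalize C.mulVec ((g y : Fin n → L) - g x) = u
      generalize C.mulVec ((g' y : Fin n → L) - g' x) = w
      abel
    show ‖((h' (g y) : Fin n → L) - h' (g x)) - ((y : Fin n → L) - x)‖ ≤ ε * ‖(y : Fin n → L) - x‖
    rw [h7]
    exact add_le (sub_le (h1.trans h3) (h2.trans h4)) h5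

end Pool.Agent.Q182.PE.TY
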